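import Mathlib

set_option autoImplicit false
set_option linter.unusedSectionVars false

namespace Pool.Agent.H.MP_256cd6_an
open Filter Set Topology Finset

variable {d k : ℕ} (M : Fin k → Fin k → Bool)

def TS (d : ℕ) : Set (List (Fin d) → Fin k) := {t | ∀ g i, M (t g) (t (g ++ [i])) = true}

def res (n : ℕ) (t : List (Fin d) → Fin k) : {w : List (Fin d) // w.length ≤ n} → Fin k :=
  fun w => t w.1

instance (n : ℕ) : Finite {w : List (Fin d) // w.length ≤ n} := List.finite_length_le (Fin d) n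

def rt (n : ℕ) : {w : List (Fin d) // w.length ≤ n} := ⟨[], by simp⟩

noncomputable def x (d : ℕ) (a : Fin k) (n : ℕ) : ℕ :=
  {u ∈ res n '' TS M d | u (rt n) = a}.ncard

noncomputable def s (d : ℕ) (a : Fin k) (n : ℕ) : ℕ := ∑ b, if M a b then x M d b n else 0

lemma fib {α : Type*} [Finite α] (S : Set α) (f : α → Fin k) :
    S.ncard = ∑ b, {u ∈ S | f u = b}.ncard := by
  classical
  have := Fintype.ofFinite α
  simp only [Set.ncard_eq_toFinset_card']
  rw [Finset.card_eq_sum_card_fiberwise (f := f) (t := univ) (by simp)]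
  exact Finset.sum_congr rfl fun b _ => by congr 1; ext; simp

lemma x_succ (a : Fin k) (n : ℕ) : x M d a (n + 1) = s M d a n ^ d := by
  have e : s M d a n = {u ∈ res n '' TS M d | M a (u (rt n)) = true}.ncard := by
    rw [fib _ fun u => u (rt n)]
    refine Finset.sum_congr rfl fun b _ => ?_
    split_ifs with h
    · rw [x]; congr 1; ext u
      exact ⟨fun hu => ⟨⟨hu.1, hu.2 ▸ h⟩, hu.2⟩, fun hu => ⟨hu.1.1, hu.2⟩⟩
    · symm
      rw [Set.ncard_eq_zero, Set.eq_empty_iff_forall_notMem]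
      exact fun u hu => h (hu.2 ▸ hu.1.2)
  have e2 : ∀ S : Set ({w : List (Fin d) // w.length ≤ n} → Fin k),
      S.ncard ^ d = (Set.univ.pi fun _ : Fin d => S).ncard := fun S => by
    rw [← Nat.card_coe_set_eq, ← Nat.card_coe_set_eq, Nat.card_congr (Equiv.Set.univPi _),
      Nat.card_fun]
    simp
  rw [e, e2, x]
  refine Set.ncard_congr (fun u _ i w => u ⟨i :: w.1, by simpa using w.2⟩) ?_ ?_ ?_
  · rintro _ ⟨⟨t, ht, rfl⟩, h0⟩ i -
    exact ⟨⟨fun w => t (i :: w), fun g j => ht (i :: g) j, rfl⟩, h0 ▸ ht [] i⟩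
  · intro u v hu hv h
    funext ⟨w, hw⟩
    cases w with
    | nil => exact hu.2.trans hv.2.symm
    | cons i w => exact congrFun (congrFun h i) ⟨w, by simpa using hw⟩
  · intro v hv
    choose t ht using fun i => (hv i trivial).1
    refine ⟨res _ fun w => List.casesOn w a fun i w => t i w, ⟨⟨_, fun g j => ?_, rfl⟩, rfl⟩,
      funext fun i => ?_⟩
    · cases g with
      | nil =>
        have := (hv j trivial).2
        rw [← (ht j).2] at this
        exact this
      | cons i g => exact (ht i).1 g j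
    · rw [← (ht i).2]; rfl

lemma x0 (a : Fin k) : x M d a 0 ≤ 1 :=
  (Set.ncard_le_one_iff (Set.toFinite _)).2 fun {u v} hu hv => funext fun w => by
    obtain rfl : w = rt 0 := Subtype.ext (List.length_eq_zero_iff.1 (Nat.le_zero.1 w.2))
    exact hu.2.trans hv.2.symm

lemma dead {a : Fin k} (h : x M d a 0 = 0) (n : ℕ) : x M d a n = 0 := by
  rw [x, Set.ncard_eq_zero, Set.eq_empty_iff_forall_notMem] at h ⊢
  rintro _ ⟨⟨t, ht, rfl⟩, h0⟩
  exact h _ ⟨⟨t, ht, rfl⟩, h0⟩

def Re : ℕ → Fin k → Prop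
  | 0, _ => True
  | m + 1, a => ∃ b, Re m b ∧ M b a = true

lemma x_le {a b : Fin k} (h : M b a = true) (n : ℕ) : x M d a n ≤ s M d b n := by
  have := Finset.single_le_sum (f := fun c => if M b c then x M d c n else 0)
    (fun _ _ => Nat.zero_le _) (Finset.mem_univ a)
  simpa [h, s] using this

lemma low (m : ℕ) : ∀ a n, Re M m a → ∃ c, x M d a n ^ d ^ m ≤ x M d c (n + m) := by
  induction m with
  | zero => exact fun a n _ => ⟨a, by simp⟩
  | succ m ih =>
    rintro a n ⟨b, h1, h2⟩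
    obtain ⟨c, hc⟩ := ih b (n + 1) h1
    refine ⟨c, le_trans ?_ (hc.trans_eq (by congr 1; omega))⟩
    rw [x_succ, pow_succ', pow_mul]
    exact Nat.pow_le_pow_left (Nat.pow_le_pow_left (x_le M h2 n) _) _

lemma upp (j : ℕ) : ∃ C : ℝ, 0 < C ∧ ∀ n (B : ℝ), 0 ≤ B → (∀ a, Re M j a → x M d a n ≤ B) →
    ∀ a, x M d a (n + j) ≤ C * B ^ d ^ j := by
  induction j with
  | zero => exact ⟨1, one_pos, fun n B _ h a => by simpa using h a trivial⟩
  | succ j ih =>
    obtain ⟨C, C0, hC⟩ := ih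
    refine ⟨C * (k + 1) ^ d ^ (j + 1), by positivity, fun n B B0 h a => ?_⟩
    have := hC (n + 1) (((k + 1) * B) ^ d) (by positivity) (fun b hb => by
      rw [x_succ, s]; push_cast
      refine pow_le_pow_left₀ (Finset.sum_nonneg fun _ _ => by positivity)
        ((Finset.sum_le_card_nsmul _ _ B fun c _ => ?_).trans (by simp; nlinarith)) _
      split_ifs with h1
      · exact h c ⟨b, hb, h1⟩
      · exact B0) a
    rw [show n + (j + 1) = n + 1 + j by omega]
    refine this.trans_eq ?_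
    rw [← pow_mul, ← pow_succ', mul_pow, mul_assoc]

lemma Re.pred {m : ℕ} : ∀ {a}, Re M (m + 1) a → Re M m a := by
  induction m with
  | zero => exact fun _ => trivial
  | succ m ih => exact fun ⟨b, h1, h2⟩ => ⟨b, ih h1, h2⟩

def Ess (a : Fin k) : Prop := ∀ m, Re M m a

lemma stab : ∃ K, ∀ a, Re M K a → Ess M a := by
  have : ∀ a, ∀ᶠ K in atTop, Re M K a → Ess M a := fun a => by
    by_cases h : Ess M a
    · exact .of_forall fun _ _ => h
    · obtain ⟨m, hm⟩ := not_forall.1 h
      refine (eventually_ge_atTop m).mono fun K hK hh => (hm ?_).elim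
      induction K, hK using Nat.le_induction with
      | base => exact hh
      | succ K _ ih => exact ih hh.pred
  exact (eventually_all.2 this).exists

lemma Ess.next {a b : Fin k} (h : Ess M a) (hb : M a b = true) : Ess M b :=
  fun m => Re.pred M ⟨a, h m, hb⟩

variable {h : ℝ} (hd : 2 ≤ d)
  (hh : Tendsto (fun n : ℕ => Real.log (res n '' TS M d).ncard / (((d : ℝ) ^ (n + 1) - 1) / (d - 1)))
    atTop (𝓝 h))

include hd hh

lemma hlow {a : Fin k} (ha : Ess M a) {n A : ℕ} (A0 : 0 < A) (hA : A ≤ x M d a n) :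
    (d - 1) * Real.log A / d ^ (n + 1) ≤ h := by
  have d1 : (1 : ℝ) < d := by exact_mod_cast hd
  refine ge_of_tendsto' (hh.comp (tendsto_add_atTop_nat n)) fun m => ?_
  obtain ⟨c, hc⟩ := low M m a n (ha m)
  have h1 : A ^ d ^ m ≤ (res (m + n) '' TS M d).ncard := by
    rw [add_comm m]
    exact ((Nat.pow_le_pow_left hA _).trans hc).trans
      (Set.ncard_le_ncard (Set.sep_subset _ _) (Set.toFinite _))
  have h2 : (d : ℝ) ^ m * Real.log A ≤ Real.log (res (m + n) '' TS M d).ncard := by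
    have := Real.log_le_log (by positivity) (show ((A : ℝ) ^ d ^ m) ≤
      (res (m + n) '' TS M d).ncard by exact_mod_cast h1)
    rwa [Real.log_pow, Nat.cast_pow] at this
  have h3 : 1 < (d : ℝ) ^ (m + n + 1) := one_lt_pow₀ d1 (by omega)
  have h4 := Real.log_natCast_nonneg A
  have h5 := sub_pos.2 d1
  rw [Function.comp, div_div_eq_mul_div, div_le_div_iff₀ (by positivity) (sub_pos.2 h3)]
  have := mul_le_mul_of_nonneg_right h2 (show 0 ≤ (d - 1) * (d : ℝ) ^ (n + 1) by positivity)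
  have e : (d : ℝ) ^ (m + n + 1) = d ^ m * d ^ (n + 1) := by ring
  rw [e]
  nlinarith [mul_nonneg h5.le h4]

lemma hupp {n : ℕ} {c : ℝ} (c1 : 1 ≤ c) (hc : ∀ m a, Ess M a → x M d a (m + n) ≤ c ^ d ^ m) :
    h ≤ (d - 1) * Real.log c / d ^ (n + 1) := by
  have d1 : (1 : ℝ) < d := by exact_mod_cast hd
  obtain ⟨K, hK⟩ := stab M
  obtain ⟨C, C0, hC⟩ := upp (d := d) M K
  set L := Real.log (1 + k * C) with hL
  have t0 : Tendsto (fun m : ℕ => ((d : ℝ) ^ (m + K))⁻¹) atTop (𝓝 0) :=
    ((tendsto_pow_atTop_atTop_of_one_lt d1).comp (tendsto_add_atTop_nat K)).inv_tendsto_atTop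
  have t1 := (((t0.const_mul L).add_const (Real.log c)).const_mul (d - 1 : ℝ)).div
    (t0.const_sub ((d : ℝ) ^ (n + 1))) (by simp; omega)
  simp only [mul_zero, zero_add, sub_zero] at t1
  refine le_of_tendsto_of_tendsto' (hh.comp (tendsto_add_atTop_nat (n + K))) t1 fun m => ?_
  have h0 : 1 ≤ c ^ d ^ (m + K) := one_le_pow₀ c1
  have h1 : ((res (m + (n + K)) '' TS M d).ncard : ℝ) ≤ (1 + k * C) * c ^ d ^ (m + K) := by
    rw [fib _ fun u => u (rt _), ← add_assoc]; push_cast
    refine (Finset.sum_le_card_nsmul _ _ _ fun a _ =>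
      hC (m + n) _ (by positivity) (fun a ha => hc m a (hK a ha)) a).trans ?_
    rw [← pow_mul, ← pow_add]
    simp; nlinarith
  have h2 : Real.log (res (m + (n + K)) '' TS M d).ncard ≤ L + d ^ (m + K) * Real.log c := by
    have e : L + d ^ (m + K) * Real.log c = Real.log ((1 + k * C) * c ^ d ^ (m + K)) := by
      rw [Real.log_mul (by positivity) (by positivity), Real.log_pow, Nat.cast_pow]
    rw [e]
    rcases Nat.eq_zero_or_pos (res (m + (n + K)) '' TS M d).ncard with h | h
    · rw [h]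
      simpa using Real.log_nonneg (one_le_mul_of_one_le_of_one_le
        (le_add_of_nonneg_right (by positivity)) h0)
    · exact Real.log_le_log (by positivity) h1
  have h3 : 1 < (d : ℝ) ^ (m + (n + K) + 1) := one_lt_pow₀ d1 (by omega)
  have h5 := sub_pos.2 d1
  have h6 := sub_pos.2 h3
  refine (div_le_div_of_nonneg_right h2 (by positivity)).trans_eq ?_
  have e : (d : ℝ) ^ (n + 1) - ((d : ℝ) ^ (m + K))⁻¹ =
      ((d : ℝ) ^ (m + (n + K) + 1) - 1) / d ^ (m + K) := by field_simp; ring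
  rw [Pi.div_apply, e]
  field_simp

omit hh hd in
lemma s_le {a : Fin k} {n : ℕ} {B : ℝ} (h : ∀ b, M a b = true → x M d b n ≤ B) :
    (s M d a n : ℝ) ≤ s M d a 0 * B := by
  simp only [s]; push_cast
  rw [Finset.sum_mul]
  refine Finset.sum_le_sum fun b _ => ?_
  split_ifs with h1
  · rcases Nat.le_one_iff_eq_zero_or_eq_one.1 (x0 (d := d) M b) with h2 | h2
    · simp [h2, dead M h2 n]
    · simpa [h2] using h b h1
  · simp

lemma three {a : Fin k} (ha : Ess M a) (h3 : 3 ≤ s M d a 0) : (d - 1) / d * Real.log 3 ≤ h := by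
  have := hlow M hd hh ha (n := 0 + 1) (A := 3 ^ d) (by positivity)
    (by rw [x_succ]; exact Nat.pow_le_pow_left h3 _)
  refine le_trans (le_of_eq ?_) this
  have : (d : ℝ) ≠ 0 := by positivity
  push_cast
  rw [Real.log_pow]; field_simp

lemma big (h3 : 3 ≤ d) : h ∉ Ioo ((d - 1 : ℝ) / d * Real.log 2.9) ((d - 1) / d * Real.log 3) := by
  rintro ⟨a1, a2⟩
  by_cases hs : ∃ a, Ess M a ∧ 3 ≤ s M d a 0
  · obtain ⟨a, ha, h3⟩ := hs
    exact a2.not_ge (three M hd hh ha h3)
  push Not at hs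
  have e : ∀ m a, Ess M a → (x M d a m : ℝ) ≤ 2.9 ^ d ^ m / 2.9 := fun m => by
    induction m with
    | zero => exact fun a _ => (show (x M d a 0 : ℝ) ≤ 1 by exact_mod_cast x0 M a).trans (by norm_num)
    | succ m ih =>
      intro a ha
      have h2 : (s M d a 0 : ℝ) ≤ 2 := by exact_mod_cast Nat.lt_succ_iff.1 (hs a ha)
      have := (s_le M fun b hb => ih b (ha.next M hb)).trans
        (mul_le_mul_of_nonneg_right h2 (by positivity))
      rw [x_succ]; push_cast
      refine (pow_le_pow_left₀ (by positivity) this _).trans ?_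
      rw [mul_div_left_comm, mul_pow, ← pow_mul, ← pow_succ, div_eq_mul_inv _ (2.9 : ℝ)]
      refine mul_le_mul_of_nonneg_left ((pow_le_pow_of_le_one (by norm_num) (by norm_num) h3).trans
        (by norm_num)) (by positivity)
  have := hupp M hd hh (n := 0) (c := 2.9) (by norm_num) fun m a ha =>
    (e m a ha).trans (div_le_self (by positivity) (by norm_num))
  rw [zero_add, pow_one, mul_div_right_comm] at this
  exact a1.not_ge this

omit hh hd in
lemma two (hh : Tendsto (fun n : ℕ => Real.log (res n '' TS M 2).ncard /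
    ((((2 : ℕ) : ℝ) ^ (n + 1) - 1) / ((2 : ℕ) - 1))) atTop (𝓝 h)) :
    h ∉ Ioo (Real.log 61 / 8) (Real.log 64 / 8) := by
  rintro ⟨a1, a2⟩
  by_cases hs : ∃ a, Ess M a ∧ 3 ≤ s M 2 a 0
  · obtain ⟨a, ha, h3⟩ := hs
    have := three M le_rfl hh ha h3
    have e : Real.log 64 ≤ 4 * Real.log 3 := by
      have := Real.log_le_log (by norm_num) (show (64 : ℝ) ≤ 3 ^ 4 by norm_num)
      simpa using this
    norm_num at this
    linarith
  by_cases hq : ∃ a, Ess M a ∧ 2 ≤ ∑ b, if M a b then x M 2 b 1 / 4 else 0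
  · obtain ⟨a, ha, h3⟩ := hq
    have : 4 * (∑ b, if M a b then x M 2 b 1 / 4 else 0) ≤ s M 2 a 1 := by
      rw [Finset.mul_sum]
      exact Finset.sum_le_sum fun b _ => by split_ifs <;> omega
    have := hlow M le_rfl hh ha (n := 1 + 1) (A := 8 ^ 2) (by positivity)
      (by rw [x_succ]; exact Nat.pow_le_pow_left (by omega) _)
    norm_num at this
    linarith
  push Not at hs hq
  have h2 : ∀ a, Ess M a → (s M 2 a 0 : ℝ) ≤ 2 := fun a ha => by
    exact_mod_cast Nat.lt_succ_iff.1 (hs a ha)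
  have st : ∀ n (B B' : ℝ), 0 ≤ B → B ^ 2 ≤ B' → (∀ a, Ess M a → x M 2 a n ≤ B) →
      (∀ a, Ess M a → x M 2 a (n + 1) ≤ B') →
      ∀ a, Ess M a → x M 2 a (n + 1 + 1) ≤ (B' + B ^ 2) ^ 2 := fun n B B' B0 BB b1 b2 a ha => by
    rw [x_succ]; push_cast
    refine pow_le_pow_left₀ (by positivity) ?_ _
    have q : ((∑ b, if M a b then x M 2 b 1 / 4 else 0 : ℕ) : ℝ) ≤ 1 := by
      exact_mod_cast Nat.lt_succ_iff.1 (hq a ha)
    have : (s M 2 a (n + 1) : ℝ) ≤ s M 2 a 0 * B ^ 2 +
        (∑ b, if M a b then x M 2 b 1 / 4 else 0 : ℕ) * (B' - B ^ 2) := by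
      simp only [s, Nat.cast_sum, Finset.sum_mul, ← Finset.sum_add_distrib]
      refine Finset.sum_le_sum fun b _ => ?_
      split_ifs with h1
      · have hb := ha.next M h1
        rcases Nat.le_one_iff_eq_zero_or_eq_one.1 (x0 (d := 2) M b) with h3 | h3
        · simp [dead M h3]
        · by_cases h4 : s M 2 b 0 = 2
          · have : x M 2 b 1 = 4 := by rw [← zero_add 1, x_succ, h4]; rfl
            simpa [h3, this] using b2 b hb
          · have h5 : (s M 2 b 0 : ℝ) ≤ 1 := by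
              have := hs b hb
              exact_mod_cast (show s M 2 b 0 ≤ 1 by omega)
            have h6 := (s_le M fun c hc => b1 c (hb.next M hc)).trans
              (mul_le_mul_of_nonneg_right h5 B0)
            rw [x_succ, h3]; push_cast
            have := pow_le_pow_left₀ (by positivity) h6 2
            have := mul_nonneg (Nat.cast_nonneg (α := ℝ) (x M 2 b 1 / 4)) (sub_nonneg.2 BB)
            linarith
      · simp
    have := mul_le_mul_of_nonneg_right (h2 a ha) (sq_nonneg B)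
    have := mul_le_mul_of_nonneg_right q (sub_nonneg.2 BB)
    linarith
  have e0 : ∀ a, Ess M a → (x M 2 a 0 : ℝ) ≤ 1 := fun a _ => by exact_mod_cast x0 M a
  have e1 : ∀ a, Ess M a → (x M 2 a (0 + 1) : ℝ) ≤ 4 := fun a ha => by
    rw [x_succ]; push_cast
    exact (pow_le_pow_left₀ (by positivity) (h2 a ha) 2).trans (by norm_num)
  have e2 := st 0 1 4 (by norm_num) (by norm_num) e0 e1
  have e3 := st _ 4 _ (by norm_num) (by norm_num) e1 e2
  have e : ∀ m, (∀ a, Ess M a → (x M 2 a (m + 2) : ℝ) ≤ 61 ^ 2 ^ m / 2.2) ∧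
      ∀ a, Ess M a → (x M 2 a (m + 2 + 1) : ℝ) ≤ 61 ^ 2 ^ (m + 1) / 2.2 := fun m => by
    induction m with
    | zero => exact ⟨fun a ha => (e2 a ha).trans (by norm_num),
        fun a ha => (e3 a ha).trans (by norm_num)⟩
    | succ m ih =>
      refine ⟨ih.2, fun a ha => (st _ _ _ (by positivity) ?_ ih.1 ih.2 a ha).trans ?_⟩
      · rw [pow_succ 2 m, pow_mul]
        generalize (61 : ℝ) ^ 2 ^ m = y
        norm_num
        nlinarith [sq_nonneg y]
      · rw [pow_succ 2 (m + 1), pow_mul, div_pow, ← pow_mul 61 (2 ^ m), ← pow_succ 2 m]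
        generalize (61 : ℝ) ^ 2 ^ (m + 1) = y
        norm_num
        nlinarith [sq_nonneg y]
  have := hupp M le_rfl hh (n := 2) (c := 61) (by norm_num) fun m a ha =>
    ((e m).1 a ha).trans (div_le_self (by positivity) (by norm_num))
  norm_num at this
  linarith

end Pool.Agent.H.MP_256cd6_an
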